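import Mathlib
import Pool.Prelude.Def_F_c31e40fa
import Pool.Agent.W747.MB.Loc
import Pool.Agent.W366.MB.Der
import Pool.Agent.W108.MB.Var
import Pool.Agent.W613.MB.Stg
import Pool.Agent.W762.MB.PHS
import Pool.Agent.W410.MB.ATT
import Pool.Agent.W216.MB.ALV
import Pool.Agent.W216.MB.BAS
import Pool.Agent.W216.MB.ANN
import Pool.Agent.W21.MB.Slb
import Pool.Agent.W135.MB.Vit
import Pool.Agent.W12.MB.Low
import Pool.Agent.W816.MB.Slc
import Pool.Agent.W230.MB.Fin2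
import Pool.Agent.TH363.EX.Area

/-!
# The rescaled area of the non-hyperbolic part of `M_n` and the exponential family
-/

set_option autoImplicit false
open MeasureTheory Metric Filter Topology
open scoped ENNReal

namespace Pool.Agent.Results.MP_c35c17_an.ExponentialLimit

open Pool.Agent.W747.MB

/-- The parameters `ξ` for which `y ↦ ξ exp y` has an attracting cycle. -/
def expHyp : Set ℂ :=
  {ξ | ∃ m y, N62a1eb23.IsAttractingCycle (fun y => ξ * Complex.exp y) m y}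

/-- The logarithmic area of a set of parameters. -/
noncomputable def logArea (S : Set ℂ) : ℝ≥0∞ := ∫⁻ ξ in S, ENNReal.ofReal (1 / ‖ξ‖ ^ 2)

/-- The non-hyperbolic part of the Multibrot set `M_n`. -/
def NonHyp (n : ℕ) : Set ℂ :=
  N62a1eb23.multibrotSet n \ {c | ∃ m z, N62a1eb23.IsAttractingCycle (fun z => z ^ n + c) m z}

theorem hVar : P_VAR := Pool.Agent.W108.MB.main Pool.Agent.W366.MB.main

theorem hLoc : P_LOC :=
  Pool.Agent.W747.MB.loc hVar (Pool.Agent.W613.MB.main hVar) Pool.Agent.W762.MB.main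
    Pool.Agent.W216.MB.ALV.main Pool.Agent.W135.MB.Vit.main
    (Pool.Agent.W12.MB.main Pool.Agent.W410.MB.ATT.main Pool.Agent.W216.MB.ALV.main)
    (Pool.Agent.W816.MB.main Pool.Agent.W366.MB.main hVar Pool.Agent.W21.MB.main)
    Pool.Agent.W216.MB.BAS.main

theorem hFin2 : P_FIN2 :=
  Pool.Agent.W230.MB.main Pool.Agent.W216.MB.ALV.main Pool.Agent.W216.MB.BAS.main
    Pool.Agent.W135.MB.Vit.main Pool.Agent.W216.MB.ANN.main hLoc

theorem expHyp_eq : expHyp = Pool.Agent.TH363.EX.expHyp := by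
  ext ξ
  constructor
  · rintro ⟨m, y, hm, hper, hd, hlt⟩
    have hE : (fun y => ξ * Complex.exp y) = Pool.Agent.TH363.EX.E ξ := rfl
    rw [hE, (Pool.Agent.TH363.EX.hasDeriv_E_iter ξ y m).deriv] at hlt
    obtain ⟨p, hp⟩ := exists_nat_one_div_lt (show 0 < 1 - ‖Pool.Agent.TH363.EX.DE ξ m y‖ by linarith)
    refine ⟨max m (p + 1), m, hm, le_max_left _ _, y, hper, ?_⟩
    have h1 : 1 / ((max m (p + 1) : ℕ) : ℝ) ≤ 1 / ((p:ℝ) + 1) := by
      apply one_div_le_one_div_of_le (by positivity)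
      have : ((p + 1 : ℕ) : ℝ) ≤ ((max m (p + 1) : ℕ) : ℝ) := by exact_mod_cast le_max_right _ _
      push_cast at this ⊢
      exact this
    linarith
  · rintro ⟨p, m, hm, hmp, y, hper, hmul⟩
    have hp0 : (0:ℝ) < 1 / p := by
      have : (1:ℝ) ≤ p := by exact_mod_cast hm.trans hmp
      positivity
    exact ⟨m, y, hm, hper, (Pool.Agent.TH363.EX.hasDeriv_E_iter ξ y m).differentiableAt, by
      have hE : (fun y => ξ * Complex.exp y) = Pool.Agent.TH363.EX.E ξ := rfl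
      rw [hE, (Pool.Agent.TH363.EX.hasDeriv_E_iter ξ y m).deriv]
      linarith⟩

theorem norm_mul_pow (n : ℕ) (c : ℂ) : ‖(n:ℂ) * c ^ (n - 1)‖ = n * ‖c‖ ^ (n - 1) := by
  rw [norm_mul, norm_pow, Complex.norm_natCast]

/-- The local statement. -/
theorem local_limsup {a : ℝ} (ha : 0 < a) (b : ℝ) :
    limsup (fun n : ℕ => (n : ℝ≥0∞) *
      volume (NonHyp n ∩ {c | a ≤ n * ‖c‖ ^ (n - 1) ∧ n * ‖c‖ ^ (n - 1) ≤ b})) atTop ≤
      logArea ({ξ | a ≤ ‖ξ‖ ∧ ‖ξ‖ ≤ b} \ expHyp) := by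
  have h1 := (Pool.Agent.TH363.EX.formula ha b).2
  rw [expHyp_eq]
  refine le_trans (le_iInf fun p => limsup_le_limsup ?_) h1
  filter_upwards [eventually_ge_atTop 2] with n hn
  gcongr
  rintro c ⟨⟨hc1, hc2⟩, hc3, hc4⟩
  have hn1 : 1 ≤ n := by omega
  have hc0 : c ≠ 0 := by
    rintro rfl
    rw [norm_zero, zero_pow (by omega), mul_zero] at hc3
    linarith
  refine ⟨⟨?_, ?_⟩, ?_⟩
  · rw [norm_mul_pow]; exact hc3
  · rw [norm_mul_pow]; exact hc4
  · rintro ⟨m, hm, hmp, y, hper, hmul⟩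
    have hp0 : (0:ℝ) < 1 / p := by
      have : (1:ℝ) ≤ p := by exact_mod_cast hm.trans hmp
      positivity
    obtain ⟨z, hz, -⟩ := (Pool.Agent.TH363.EX.conj_iff hn1 hc0 (m := m) (q := 1)).2
      ⟨hm, y, hper, by linarith, by linarith⟩
    exact hc2 ⟨m, z, hz⟩

/-- The rescaled area `n * area (M_n minus H_n)` is asymptotically bounded by the logarithmic area
of the non-hyperbolic part of the exponential family, with an explicit tail. -/
theorem result :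
    (∀ a b : ℝ, 0 < a → limsup (fun n : ℕ => (n : ℝ≥0∞) *
        volume (NonHyp n ∩ {c | a ≤ n * ‖c‖ ^ (n - 1) ∧ n * ‖c‖ ^ (n - 1) ≤ b})) atTop ≤
      logArea ({ξ | a ≤ ‖ξ‖ ∧ ‖ξ‖ ≤ b} \ expHyp)) ∧
    ∃ C : ℝ, 0 < C ∧ ∀ Y : ℝ, 1 ≤ Y →
      limsup (fun n : ℕ => (n : ℝ≥0∞) * volume (NonHyp n)) atTop ≤
        logArea ({ξ | 1 / 3 ≤ ‖ξ‖ ∧ ‖ξ‖ ≤ Y} \ expHyp) +
          ENNReal.ofReal (C * (1 + Real.log Y) / Y) := by
  refine ⟨fun a b ha => local_limsup ha b, ?_⟩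
  obtain ⟨C, hC, h2⟩ := hFin2
  refine ⟨C, hC, fun Y hY => ?_⟩
  have hY0 : 0 < Y := by linarith
  have hlog := Real.log_nonneg hY
  have h3 := local_limsup (show (0:ℝ) < 1 / 3 by norm_num) Y
  refine le_trans ?_ (add_le_add_left h3 _)
  have h4 : limsup (fun n : ℕ => (n : ℝ≥0∞) *
      volume (NonHyp n ∩ {c | 1 / 3 ≤ n * ‖c‖ ^ (n - 1) ∧ n * ‖c‖ ^ (n - 1) ≤ Y})) atTop +
      ENNReal.ofReal (C * (1 + Real.log Y) / Y) =
      limsup (fun n : ℕ => (n : ℝ≥0∞) *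
      volume (NonHyp n ∩ {c | 1 / 3 ≤ n * ‖c‖ ^ (n - 1) ∧ n * ‖c‖ ^ (n - 1) ≤ Y}) +
      ENNReal.ofReal (C * (1 + Real.log Y) / Y)) atTop := by
    exact (limsup_add_const _ _ _ (by isBoundedDefault) (by isBoundedDefault)).symm
  rw [h4]
  refine limsup_le_limsup ?_
  filter_upwards [eventually_ge_atTop (10 ^ 6)] with n hn
  have hn2 : 2 ≤ n := le_trans (by norm_num) hn
  have hn0 : (0:ℝ) < n := by
    have : 0 < n := by omega
    exact_mod_cast this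
  have hsub : NonHyp n ⊆
      (NonHyp n ∩ {c | 1 / 3 ≤ n * ‖c‖ ^ (n - 1) ∧ n * ‖c‖ ^ (n - 1) ≤ Y}) ∪
      (Bad n ∩ {c | Y ≤ Pool.Agent.W747.MB.Y n c}) := by
    intro c hc
    have hcB : c ∈ Bad n := hc
    have h5 := (Pool.Agent.W216.MB.ALV.main n hn c hcB).1
    rcases le_total (Pool.Agent.W747.MB.Y n c) Y with h6 | h6
    · exact Or.inl ⟨hc, h5, h6⟩
    · exact Or.inr ⟨hcB, h6⟩
  calc (n:ℝ≥0∞) * volume (NonHyp n) ≤ (n:ℝ≥0∞) * (volume (NonHyp n ∩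
        {c | 1 / 3 ≤ n * ‖c‖ ^ (n - 1) ∧ n * ‖c‖ ^ (n - 1) ≤ Y}) +
        volume (Bad n ∩ {c | Y ≤ Pool.Agent.W747.MB.Y n c})) := by
        gcongr
        exact (measure_mono hsub).trans (measure_union_le _ _)
    _ = (n:ℝ≥0∞) * volume (NonHyp n ∩
        {c | 1 / 3 ≤ n * ‖c‖ ^ (n - 1) ∧ n * ‖c‖ ^ (n - 1) ≤ Y}) +
        (n:ℝ≥0∞) * volume (Bad n ∩ {c | Y ≤ Pool.Agent.W747.MB.Y n c}) := mul_add _ _ _
    _ ≤ _ := by
        gcongr
        calc (n:ℝ≥0∞) * volume (Bad n ∩ {c | Y ≤ Pool.Agent.W747.MB.Y n c})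
            ≤ (n:ℝ≥0∞) * ENNReal.ofReal (C * (1 + Real.log Y) / (n * Y)) := by
              gcongr
              exact h2 n hn2 Y hY
          _ = ENNReal.ofReal (C * (1 + Real.log Y) / Y) := by
              rw [← ENNReal.ofReal_natCast, ← ENNReal.ofReal_mul hn0.le]
              congr 1
              field_simp

end Pool.Agent.Results.MP_c35c17_an.ExponentialLimit
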