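import Mathlib
import Pool.Prelude.Def_F_c31e40fa
import Pool.Agent.W747.MB.Loc
import Pool.Agent.W216.MB.ALV
import Pool.Agent.W12.MB.Low
import Pool.Agent.W230.MB.Fin2
import Pool.Agent.TH363.CD.Upper3

/-!
# Attracting cycles of higher periods in the Multibrot sets of large degree

For every `k ≥ 1`, as `n → ∞`, the parameters of `M_n` without attracting cycle of period at most
`k` have area of exact order `log^[k] n / n`; so do those with an attracting cycle of exact period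
`k + 1`, and the non-hyperbolic ones among them have proportion at most `C / log^[k] n`.
-/

set_option autoImplicit false
open MeasureTheory Metric Filter

namespace Pool.Agent.Results.MP_c35c17_an.HigherPeriodProportion

open Pool.Agent.W747.MB

/-- The parameters of the Multibrot set `M_n` for which `z ^ n + c` has no attracting cycle of
period at most `k`. -/
def Rest (n k : ℕ) : Set ℂ :=
  {c | c ∈ N62a1eb23.multibrotSet n ∧
    ∀ m, 1 ≤ m → m ≤ k → ¬ ∃ z, N62a1eb23.IsAttractingCycle (fun z => z ^ n + c) m z}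

/-- The parameters for which `z ^ n + c` has an attracting cycle of exact period `m`. -/
def Exact (n m : ℕ) : Set ℂ :=
  {c | ∃ z, N62a1eb23.IsAttractingCycle (fun z => z ^ n + c) m z ∧
    Function.minimalPeriod (fun z => z ^ n + c) z = m}

theorem hLoc : P_LOC :=
  Pool.Agent.W747.MB.loc Pool.Agent.TH363.CD.hVar Pool.Agent.TH363.CD.hStg
    Pool.Agent.TH363.CD.hPhs Pool.Agent.W216.MB.ALV.main Pool.Agent.TH363.CD.hVit
    (Pool.Agent.W12.MB.main Pool.Agent.W410.MB.ATT.main Pool.Agent.W216.MB.ALV.main)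
    Pool.Agent.TH363.CD.hSlc Pool.Agent.W216.MB.BAS.main

theorem hFin3 : P_FIN3 :=
  Pool.Agent.W230.MB.main3 (Pool.Agent.W230.MB.main Pool.Agent.W216.MB.ALV.main
    Pool.Agent.W216.MB.BAS.main Pool.Agent.TH363.CD.hVit Pool.Agent.W216.MB.ANN.main hLoc)
    Pool.Agent.W216.MB.ALV.main Pool.Agent.W216.MB.ANN.main

/-- Removing the parameters with an attracting cycle of exact period `k + 1`. -/
theorem diff_sub {n : ℕ} (k : ℕ) : Rest n k \ Exact n (k + 1) ⊆ Rest n (k + 1) := by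
  rintro c ⟨⟨h1, h2⟩, h3⟩
  refine ⟨h1, fun m hm1 hmk => ?_⟩
  rintro ⟨z, hz⟩
  rcases Nat.lt_or_ge m (k + 1) with h4 | h4
  · exact h2 m hm1 (by omega) ⟨z, hz⟩
  obtain rfl : m = k + 1 := by omega
  set g : ℂ → ℂ := fun z => z ^ n + c with hg
  have hdiff : Differentiable ℂ g := by rw [hg]; fun_prop
  have hdi : ∀ i, Differentiable ℂ g^[i] := fun i => hdiff.iterate i
  obtain ⟨hpos, hper, hd, hlt⟩ := hz
  set p := Function.minimalPeriod g z with hp
  have hp0 : 0 < p := Function.IsPeriodicPt.minimalPeriod_pos hpos hper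
  obtain ⟨q, hq⟩ : p ∣ k + 1 := Function.IsPeriodicPt.minimalPeriod_dvd hper
  have hq0 : q ≠ 0 := by
    rintro rfl
    omega
  have hpk : p ≤ k + 1 := Function.IsPeriodicPt.minimalPeriod_le hpos hper
  rcases Nat.lt_or_ge p (k + 1) with h5 | h5
  · refine h2 p hp0 (by omega) ⟨z, hp0, Function.isPeriodicPt_minimalPeriod g z,
      (hdi p).differentiableAt, ?_⟩
    have h6 : HasDerivAt (g^[p])^[q] (deriv g^[p] z ^ q) z :=
      HasDerivAt.iterate z ((hdi p).differentiableAt.hasDerivAt)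
        (Function.isPeriodicPt_minimalPeriod g z) q
    rw [← Function.iterate_mul, ← hq] at h6
    rw [h6.deriv, norm_pow] at hlt
    by_contra h7
    rw [not_lt] at h7
    exact absurd hlt (not_lt.2 (one_le_pow₀ h7))
  · refine h3 ⟨z, ⟨hpos, hper, hd, hlt⟩, ?_⟩
    change p = k + 1
    omega

theorem result (k : ℕ) (hk : 1 ≤ k) :
    ∃ (a C : ℝ) (n₀ : ℕ), 0 < a ∧ 0 < C ∧ ∀ n : ℕ, n₀ ≤ n →
      0 < Real.log^[k] (n : ℝ) ∧
      Exact n (k + 1) ⊆ Rest n k ∧
      ENNReal.ofReal (a * Real.log^[k] (n : ℝ) / n) ≤ volume (Exact n (k + 1)) ∧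
      volume (Rest n k) ≤ ENNReal.ofReal (C * Real.log^[k] (n : ℝ) / n) ∧
      volume (N62a1eb23.multibrotSet n \
          {c | ∃ m z, N62a1eb23.IsAttractingCycle (fun z => z ^ n + c) m z}) ≤
        ENNReal.ofReal (C / Real.log^[k] (n : ℝ)) * volume (Rest n k) ∧
      volume (Rest n k \ Exact n (k + 1)) ≤
        ENNReal.ofReal (C * Real.log^[k + 1] (n : ℝ) / Real.log^[k] (n : ℝ)) *
          volume (Rest n k) := by
  obtain ⟨C₁, hC₁, h1⟩ := Pool.Agent.TH363.CD.upperN hk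
  obtain ⟨a, ha, h2⟩ := Pool.Agent.TH363.CD.lowerN hk
  obtain ⟨C₃, hC₃, h3⟩ := hFin3
  obtain ⟨C₂, hC₂, h4⟩ := Pool.Agent.TH363.CD.upperN (show 1 ≤ k + 1 by omega)
  have hev := (h1.and h2).and (((eventually_ge_atTop 2).and
    ((Pool.Agent.TH363.CD.tendsto_iterlog k).eventually_ge_atTop 1)).and
    (h4.and ((Pool.Agent.TH363.CD.tendsto_iterlog (k + 1)).eventually_ge_atTop 1)))
  rw [eventually_atTop] at hev
  obtain ⟨n₀, hn₀⟩ := hev
  refine ⟨a, C₁ + C₃ / a + C₂ / a, n₀, ha, by positivity, fun n hn => ?_⟩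
  obtain ⟨⟨u1, u2⟩, ⟨u3, u4⟩, u6, u7⟩ := hn₀ n hn
  have hlog' : 0 < Real.log^[k + 1] (n : ℝ) := lt_of_lt_of_le one_pos u7
  have ha1 : 0 ≤ C₃ / a := by positivity
  have ha2 : 0 ≤ C₂ / a := by positivity
  have hlog : 0 < Real.log^[k] (n : ℝ) := lt_of_lt_of_le one_pos u4
  have hnR : (2:ℝ) ≤ n := by exact_mod_cast u3
  have hn0 : (0:ℝ) < n := by linarith
  have hsub : Exact n (k + 1) ⊆ Rest n k := Pool.Agent.TH363.CD.Ex_sub_NN u3 k
  have u1' : volume (Rest n k) ≤ ENNReal.ofReal (C₁ * Real.log^[k] (n : ℝ) / n) := u1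
  have u2' : ENNReal.ofReal (a * Real.log^[k] (n : ℝ) / n) ≤ volume (Exact n (k + 1)) := u2
  have u5 : volume (N62a1eb23.multibrotSet n \
      {c | ∃ m z, N62a1eb23.IsAttractingCycle (fun z => z ^ n + c) m z}) ≤
      ENNReal.ofReal (C₃ / n) := h3 n u3
  have u6' : volume (Rest n (k + 1)) ≤ ENNReal.ofReal (C₂ * Real.log^[k + 1] (n : ℝ) / n) := u6
  refine ⟨hlog, hsub, u2', u1'.trans (ENNReal.ofReal_le_ofReal ?_), u5.trans ?_,
    ((measure_mono (diff_sub k)).trans u6').trans ?_⟩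
  · gcongr
    linarith
  · have h4 : ENNReal.ofReal (C₃ / n) = ENNReal.ofReal (C₃ / a / Real.log^[k] (n : ℝ)) *
        ENNReal.ofReal (a * Real.log^[k] (n : ℝ) / n) := by
      rw [← ENNReal.ofReal_mul (by positivity)]
      congr 1
      field_simp
    rw [h4]
    gcongr
    · linarith
    · exact u2'.trans (measure_mono hsub)
  · have h4 : ENNReal.ofReal (C₂ * Real.log^[k + 1] (n : ℝ) / n) =
        ENNReal.ofReal (C₂ / a * Real.log^[k + 1] (n : ℝ) / Real.log^[k] (n : ℝ)) *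
        ENNReal.ofReal (a * Real.log^[k] (n : ℝ) / n) := by
      rw [← ENNReal.ofReal_mul (by positivity)]
      congr 1
      field_simp
    rw [h4]
    gcongr
    · linarith
    · exact u2'.trans (measure_mono hsub)

end Pool.Agent.Results.MP_c35c17_an.HigherPeriodProportion
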