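import Mathlib
import Pool.Prelude.Def_F_c31e40fa
import Pool.Agent.TH363.QI.All

set_option autoImplicit false

namespace Pool.Agent.Results.MP_c35c17_an.QuantitativeInstability

/-- The map `z ↦ z ^ n + c`. -/
def f (n : ℕ) (c : ℂ) : ℂ → ℂ := fun z => z ^ n + c

/-- The parameters `c` for which `z ^ n + c` has an attracting cycle. -/
def hyp (n : ℕ) : Set ℂ := {c | ∃ m z, N62a1eb23.IsAttractingCycle (f n c) m z}

/-- The orbit of the critical value: `z_j` is the `j`-th iterate of `c`. -/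
def orbit (n : ℕ) (c : ℂ) (j : ℕ) : ℂ := (f n c)^[j] c

/-- The derivative `P_j` of the `j`-th iterate at the critical value. -/
noncomputable def P (n : ℕ) (c : ℂ) (j : ℕ) : ℂ := deriv (f n c)^[j] c

/-- The derivative `D_j` of the `j`-th iterate of the critical value with respect to the
parameter. -/
noncomputable def D (n : ℕ) (c : ℂ) (j : ℕ) : ℂ := deriv (fun a => (f n a)^[j] a) c

/-- For each `j ≤ k`, the sum of the `|D_i / z_i|` over `i ≤ j` is at most `A` times the largest of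
the `|P_m / z_m|` with `m ≤ j`, and conversely. -/
def Comparable (n : ℕ) (c : ℂ) (k : ℕ) (A : ℝ) : Prop := ∀ j ≤ k,
  (∃ m ≤ j, ∑ i ∈ Finset.range (j + 1), ‖D n c i / orbit n c i‖ ≤ A * ‖P n c m / orbit n c m‖) ∧
  (∃ m ≤ j, ∑ i ∈ Finset.range (j + 1), ‖P n c i / orbit n c i‖ ≤ A * ‖D n c m / orbit n c m‖)

/-- The distance to the parameters with an attracting cycle, against the derivatives of the orbit
of the critical value. -/
theorem result :
    -- at a fixed order, for all degrees and all parameters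
    (∀ k : ℕ, ∃ C : ℝ, 0 < C ∧ ∀ n : ℕ, 2 ≤ n → ∀ c ∈ N62a1eb23.multibrotSet n,
      ∃ c' ∈ hyp n, ∀ j ≤ k, n * (‖P n c j‖ + ‖D n c j‖) * ‖c' - c‖ ≤ C) ∧
    -- the estimate from which it follows, with a constant that does not depend on the order
    (∃ C : ℝ, 0 < C ∧ ∀ n : ℕ, 2 ≤ n → ∀ c ∈ N62a1eb23.multibrotSet n, ∀ (k : ℕ) (A : ℝ), 1 ≤ A →
      Comparable n c k A → ∀ v : ℕ,
        ((∃ j ≤ k, ‖orbit n c j‖ ≤ ‖orbit n c v‖) ∨
          ∃ j ≤ k, ‖orbit n c j‖ ≤ A * (n * ‖P n c j‖ * ‖orbit n c v‖ ^ n)) →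
        ∃ c' ∈ hyp n, n * ‖D n c v‖ * ‖c' - c‖ ≤ C * (1 + Real.log A) * ‖orbit n c v‖) := by
  have hP : ∀ n c j, P n c j = Pool.Agent.W746.LD.P n c c j := fun n c j =>
    (Pool.Agent.W746.LD.hasDerivAt_orb c j).deriv
  have hD : ∀ n c j, D n c j = Pool.Agent.TH363.QI.D n c j := fun n c j =>
    (Pool.Agent.TH363.QI.hasDerivAt_D n c j).deriv
  constructor
  · intro k
    obtain ⟨C, hC, h⟩ := Pool.Agent.TH363.QI.fixed_order k
    refine ⟨C, hC, ?_⟩
    intro n hn c hc
    obtain ⟨c', h1, h2⟩ := h n hn c hc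
    refine ⟨c', h1, ?_⟩
    intro j hj
    rw [hP, hD]
    exact h2 j hj
  · obtain ⟨C, hC, h⟩ := Pool.Agent.TH363.QI.dist_le
    refine ⟨C, hC, ?_⟩
    intro n hn c hc k A hA hcomp v hv
    have hn0 : (0 : ℝ) < n := by
      have : 0 < n := by omega
      exact_mod_cast this
    have hρ : ∀ i, Pool.Agent.TH363.QI.rho n c i = n * ‖P n c i / orbit n c i‖ := by
      intro i
      rw [hP, norm_div, ← mul_div_assoc]
      rfl
    have hυ : ∀ i, Pool.Agent.TH363.QI.ups n c i = n * ‖D n c i / orbit n c i‖ := by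
      intro i
      rw [hD, norm_div, ← mul_div_assoc]
      rfl
    obtain ⟨c', h1, h2, -⟩ := h n hn c hc A hA k (fun _ j hj => by
      obtain ⟨⟨m, hm, h3⟩, ⟨m', hm', h4⟩⟩ := hcomp j hj
      refine ⟨⟨m, hm, ?_⟩, ⟨m', hm', ?_⟩⟩
      · rw [hρ]
        simp only [hυ]
        rw [← Finset.mul_sum]
        calc n * ∑ i ∈ Finset.range (j + 1), ‖D n c i / orbit n c i‖
            ≤ n * (A * ‖P n c m / orbit n c m‖) := by gcongr
          _ = _ := by ring
      · rw [hυ]
        simp only [hρ]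
        rw [← Finset.mul_sum]
        calc n * ∑ i ∈ Finset.range (j + 1), ‖P n c i / orbit n c i‖
            ≤ n * (A * ‖D n c m' / orbit n c m'‖) := by gcongr
          _ = _ := by ring) v (by
      rcases hv with ⟨j, hj, h3⟩ | ⟨j, hj, h3⟩
      · exact Or.inl ⟨j, hj, h3⟩
      · refine Or.inr ⟨j, hj, ?_⟩
        rw [hP] at h3
        exact h3)
    refine ⟨c', h1, ?_⟩
    rw [hD]
    exact h2

end Pool.Agent.Results.MP_c35c17_an.QuantitativeInstability
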